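import Pool.Agent.H719R3.FO.Top
import Pool.Agent.H719R3.FO.CUB
import Pool.Agent.H719R3.FO.CUB1
import Pool.Agent.H719R3.FO.CUB2

/-!
# MP_aa14e2_an: no rational caustics for tables bounded by nonsingular algebraic curves

`Ω ⊂ ℂ` is a bounded strictly convex table whose boundary lies on the irreducible algebraic curve
`P(z, conj z) = 0`.  If this curve is nonsingular of degree at least `3` and transversal to the line
at infinity (generic curves of each degree), then for every `n` there are only finitely many closed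
billiard polygons with `n` vertices; in particular the billiard map has no rotational invariant
circle at all.  The same holds for all (singular, nontransversal) curves with many parallel tangents,
or with many isotropic tangents and asymptotes.  (For conics the conclusion fails.)
-/

open scoped ComplexConjugate

namespace Pool.Agent.Results.MP_aa14e2_an.NonsingularAlgebraicCurves

/-- The cross product of the plane vectors `w` and `v`. -/
noncomputable def cross (w v : ℂ) : ℝ := (conj w * v).im

/-- The line through the boundary point `p` of the open set `Ω` with direction `u ≠ 0` is tangent: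
it does not meet `Ω`. -/
def IsTangent (Ω : Set ℂ) (p u : ℂ) : Prop := u ≠ 0 ∧ ∀ y ∈ Ω, cross u (y - p) ≠ 0

/-- Strictly convex billiard tables with exactly one tangent line at each boundary point. -/
structure IsTable (Ω : Set ℂ) : Prop where
  isOpen : IsOpen Ω
  convex : Convex ℝ Ω
  bounded : Bornology.IsBounded Ω
  nonempty : Ω.Nonempty
  strict : StrictConvex ℝ (closure Ω)
  smooth : ∀ p ∈ frontier Ω, ∀ u v : ℂ, IsTangent Ω p u → IsTangent Ω p v → cross u v = 0

/-- Closed billiard polygons with `n` vertices `x j`: successive vertices are different, and at each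
vertex the directions of the two edges are mirror images in the tangent line. -/
structure IsPolygon (Ω : Set ℂ) (n : ℕ) (x : ℤ → ℂ) : Prop where
  per : ∀ j, x (j + n) = x j
  mem : ∀ j, x j ∈ frontier Ω
  ne : ∀ j, x (j + 1) ≠ x j
  law : ∀ j u, IsTangent Ω (x j) u →
    ((x j - x (j - 1)) * (x (j + 1) - x j) * conj u ^ 2).im = 0

/-- The affine curve `P = 0` is nonsingular. -/
def Nonsingular (P : MvPolynomial (Fin 2) ℂ) : Prop := ∀ x : Fin 2 → ℂ,
  MvPolynomial.eval x P = 0 → MvPolynomial.eval x (MvPolynomial.pderiv 0 P) = 0 →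
  MvPolynomial.eval x (MvPolynomial.pderiv 1 P) = 0 → False

/-- The curve meets the line at infinity transversally: its leading form has no multiple zero. -/
def TransversalAtInfinity (P : MvPolynomial (Fin 2) ℂ) : Prop := ∀ x : Fin 2 → ℂ, x ≠ 0 →
  MvPolynomial.eval x (MvPolynomial.pderiv 0
    (MvPolynomial.homogeneousComponent P.totalDegree P)) = 0 →
  MvPolynomial.eval x (MvPolynomial.pderiv 1
    (MvPolynomial.homogeneousComponent P.totalDegree P)) = 0 → False

/-- The curve of degree `m ≥ 2` has more than `2 m` nonsingular points (real or complex) whose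
tangents are parallel to the real direction `u`. -/
def ManyParallelTangents (P : MvPolynomial (Fin 2) ℂ) : Prop :=
  2 ≤ P.totalDegree ∧
  ∃ (u : ℂ) (Z : Finset (Fin 2 → ℂ)), u ≠ 0 ∧ 2 * P.totalDegree < Z.card ∧ ∀ x ∈ Z,
    MvPolynomial.eval x P = 0 ∧
    MvPolynomial.eval x (MvPolynomial.pderiv 0 P) * u +
      MvPolynomial.eval x (MvPolynomial.pderiv 1 P) * conj u = 0 ∧
    (MvPolynomial.eval x (MvPolynomial.pderiv 0 P) ≠ 0 ∨
      MvPolynomial.eval x (MvPolynomial.pderiv 1 P) ≠ 0)

/-- The curve `Q = 0` has at the point `(a, b)` contact of order `r` with the line `X 0 = a`, and is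
nonsingular there. -/
def Contact (Q : MvPolynomial (Fin 2) ℂ) (a b : ℂ) (r : ℕ) : Prop :=
  ∃ U V : MvPolynomial (Fin 2) ℂ,
    Q = (MvPolynomial.X 0 - MvPolynomial.C a) * U +
      (MvPolynomial.X 1 - MvPolynomial.C b) ^ r * V ∧
    MvPolynomial.eval ![a, b] U ≠ 0 ∧ MvPolynomial.eval ![a, b] V ≠ 0

/-- `Q` is the equation of the curve `P = 0` in the coordinates `X 0, 1 / X 1`. -/
def Flipped (P Q : MvPolynomial (Fin 2) ℂ) : Prop :=
  ∃ (d : ℕ) (p : ℕ → Polynomial ℂ),
    P = ∑ n ∈ Finset.range (d + 1),
      Polynomial.aeval (MvPolynomial.X 0 : MvPolynomial (Fin 2) ℂ) (p n) *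
        MvPolynomial.X 1 ^ n ∧
    Q = ∑ n ∈ Finset.range (d + 1),
      Polynomial.aeval (MvPolynomial.X 0 : MvPolynomial (Fin 2) ℂ) (p n) *
        MvPolynomial.X 1 ^ (d - n)

/-- The curve has many isotropic tangents `z = a` (for `a` in `F`, with contact of order `r a ≥ 2`)
and isotropic asymptotes `z = a` (for `a` in `G`, with contact of order `r a ≥ 1` at infinity);
a tangent of order `r` counts `2 r`, an asymptote `2 r + 3`, and the sum is larger than `4 deg P`. -/
def ManyIsotropicTangents (P : MvPolynomial (Fin 2) ℂ) : Prop :=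
  ∃ (F G : Finset ℂ) (r : ℂ → ℕ), Disjoint F G ∧
    (∀ a ∈ F, 2 ≤ r a ∧ ∃ b : ℂ, Contact P a b (r a)) ∧
    (∀ a ∈ G, 1 ≤ r a ∧ ∃ Q : MvPolynomial (Fin 2) ℂ, Flipped P Q ∧ Contact Q a 0 (r a)) ∧
    4 * P.totalDegree < ∑ a ∈ F, 2 * r a + ∑ a ∈ G, (2 * r a + 3)

/-- Let the boundary of the strictly convex billiard table `Ω` lie on the irreducible algebraic curve
`P(z, conj z) = 0`, where `P` is nonsingular of degree at least `3` and transversal to the line at
infinity, or has many parallel tangents, or has many isotropic tangents and asymptotes.  Then for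
every `n` the table has only finitely many closed billiard polygons with `n` vertices. -/
theorem result (Ω : Set ℂ) (hΩ : IsTable Ω) (P : MvPolynomial (Fin 2) ℂ) (hP : Irreducible P)
    (h0 : ∀ z ∈ frontier Ω, MvPolynomial.eval ![z, conj z] P = 0)
    (h : (3 ≤ P.totalDegree ∧ Nonsingular P ∧ TransversalAtInfinity P) ∨
      ManyParallelTangents P ∨ ManyIsotropicTangents P) :
    ∀ n : ℕ, 0 < n → {x : ℤ → ℂ | IsPolygon Ω n x}.Finite := by
  have hT : Pool.Agent.H719R3.BG.Table Ω :=
    ⟨hΩ.isOpen, hΩ.convex, hΩ.bounded, hΩ.nonempty, hΩ.strict, hΩ.smooth⟩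
  have key : ∀ n : ℕ, 0 < n →
      {x : ℤ → ℂ | Pool.Agent.H719R3.BG.Polygon Ω n x}.Finite := by
    intro n hn
    rcases h with ⟨hd, hN, hI⟩ | ⟨h2, h⟩ | ⟨F, G, r, hFG, hF, hG, hs⟩
    · rcases eq_or_lt_of_le hd with h3 | h4
      · obtain ⟨F, G, r, hH⟩ := H719FO.CUB_proof H719FO.CUB1_proof H719FO.CUB2_proof P hP h3.symm
          hN hI
        exact H719FO.finite_polygons Ω hT P hP h0 F G r hH n hn
      · exact H450BH.finite_polygons Ω hT P hP (by omega) (Or.inr ⟨h4, hN, hI⟩) h0 n hn
    · exact H450BH.finite_polygons Ω hT P hP h2 (Or.inl h) h0 n hn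
    · refine H719FO.finite_polygons Ω hT P hP h0 F G r ⟨hFG, ?_, ?_, hs⟩ n hn
      · intro a ha
        obtain ⟨h1, b, U, V, e, hU, hV⟩ := hF a ha
        exact ⟨h1, b, U, V, e, hU, hV⟩
      · intro a ha
        obtain ⟨h1, Q, ⟨d, p, e1, e2⟩, U, V, e, hU, hV⟩ := hG a ha
        exact ⟨h1, d, Q, ⟨p, e1, e2⟩, U, V, e, hU, hV⟩
  intro n hn
  refine (key n hn).subset ?_
  intro x hx
  exact ⟨hx.per, hx.mem, hx.ne, hx.law⟩

end Pool.Agent.Results.MP_aa14e2_an.NonsingularAlgebraicCurves
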